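import Pool.Agent.Helper35.OE.GoalsE

set_option autoImplicit false

/-!
# Project OE, packet BASE
-/

open MeasureTheory
open scoped ENNReal

namespace Pool.Agent.Helper19.OE

open Pool.Agent.Helper73.OE Pool.Agent.Helper35.OE

section general

variable {ι X Y : Type} [MeasurableSpace X] [MeasurableSpace Y]

/-- The two components of independent pairs. -/
def spl (y : ι → X × Y) : (ι → X) × (ι → Y) := (fun i => (y i).1, fun i => (y i).2)

theorem meas_spl : Measurable (spl : (ι → X × Y) → (ι → X) × (ι → Y)) := by
  unfold spl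
  fun_prop

theorem pair_law (μ : Measure X) (ν : Measure Y) [IsProbabilityMeasure μ]
    [IsProbabilityMeasure ν] :
    ((Measure.infinitePi fun _ : ι => μ).prod (Measure.infinitePi fun _ : ι => ν)).map
      (fun p i => (p.1 i, p.2 i)) = Measure.infinitePi fun _ : ι => μ.prod ν := by
  refine ((Measure.isProjectiveLimit_infinitePi fun _ : ι => μ.prod ν).unique ?_).symm
  intro s
  have hm : Measurable (fun (p : (ι → X) × (ι → Y)) (i : ι) => (p.1 i, p.2 i)) := by fun_prop
  rw [Measure.map_map (Finset.measurable_restrict s) hm]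
  have e : (s.restrict ∘ fun (p : (ι → X) × (ι → Y)) (i : ι) => (p.1 i, p.2 i)) =
      (MeasurableEquiv.arrowProdEquivProdArrow X Y s).symm ∘
        (Prod.map (s.restrict (π := fun _ => X)) (s.restrict (π := fun _ => Y))) := by
    funext p
    rfl
  have h1 : Measurable (Prod.map (s.restrict (π := fun _ => X)) (s.restrict (π := fun _ => Y))) :=
    (Finset.measurable_restrict s).prodMap (Finset.measurable_restrict s)
  rw [e, ← Measure.map_map (MeasurableEquiv.measurable _) h1, ← Measure.map_prod_map _ _ (Finset.measurable_restrict s) (Finset.measurable_restrict s),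
    Measure.infinitePi_map_restrict, Measure.infinitePi_map_restrict]
  exact ((measurePreserving_arrowProdEquivProdArrow X Y s (fun _ => μ) (fun _ => ν)).symm).map_eq

theorem mp_spl (μ : Measure X) (ν : Measure Y) [IsProbabilityMeasure μ]
    [IsProbabilityMeasure ν] :
    MeasurePreserving (spl : (ι → X × Y) → (ι → X) × (ι → Y))
      (Measure.infinitePi fun _ : ι => μ.prod ν)
      ((Measure.infinitePi fun _ : ι => μ).prod (Measure.infinitePi fun _ : ι => ν)) := by
  refine ⟨meas_spl, ?_⟩
  have hm : Measurable (fun (p : (ι → X) × (ι → Y)) (i : ι) => (p.1 i, p.2 i)) := by fun_prop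
  rw [← pair_law, Measure.map_map meas_spl hm]
  have e : (spl ∘ fun (p : (ι → X) × (ι → Y)) (i : ι) => (p.1 i, p.2 i)) = id := by
    funext p
    rfl
  rw [e, Measure.map_id]

/-- Uncurrying. -/
theorem mp_unc {κ : Type} (μ : Measure X) [IsProbabilityMeasure μ] :
    MeasurePreserving (fun (y : ι → κ → X) (p : ι × κ) => y p.1 p.2)
      (Measure.infinitePi fun _ : ι => Measure.infinitePi fun _ : κ => μ)
      (Measure.infinitePi fun _ : ι × κ => μ) := by
  refine ⟨by fun_prop, ?_⟩
  exact Measure.infinitePi_map_curry_symm (ι := ι) (κ := κ) (fun _ _ => μ)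

/-- Reindexing. -/
theorem mp_re {κ : Type} (e : κ ≃ ι) (μ : Measure X) [IsProbabilityMeasure μ] :
    MeasurePreserving (fun (y : ι → X) (p : κ) => y (e p))
      (Measure.infinitePi fun _ : ι => μ) (Measure.infinitePi fun _ : κ => μ) := by
  refine ⟨by fun_prop, ?_⟩
  refine Measure.eq_infinitePi _ fun s t ht => ?_
  classical
  rw [Measure.map_apply (by fun_prop) (.pi s.countable_toSet fun i _ => ht i)]
  have h : (fun (y : ι → X) (p : κ) => y (e p)) ⁻¹' ((s : Set κ).pi t) =
      ((s.map e.toEmbedding : Finset ι) : Set ι).pi (fun i => t (e.symm i)) := by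
    ext y
    simp only [Set.mem_preimage, Set.mem_pi, Finset.mem_coe, Finset.mem_map,
      Equiv.coe_toEmbedding, forall_exists_index, and_imp]
    constructor
    · rintro h _ p hp rfl
      rw [e.symm_apply_apply]
      exact h p hp
    · intro h p hp
      have := h (e p) p hp rfl
      rwa [e.symm_apply_apply] at this
  rw [h, Measure.infinitePi_pi _ (fun i _ => ht _), Finset.prod_map]
  simp

/-- Exchange of the indices. -/
theorem mp_sw {κ : Type} (μ : Measure X) [IsProbabilityMeasure μ] :
    MeasurePreserving (fun (y : ι → κ → X) (k : κ) (i : ι) => y i k)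
      (Measure.infinitePi fun _ : ι => Measure.infinitePi fun _ : κ => μ)
      (Measure.infinitePi fun _ : κ => Measure.infinitePi fun _ : ι => μ) := by
  have h1 := mp_unc (ι := ι) (κ := κ) μ
  have h2 := mp_re (Equiv.prodComm κ ι) μ
  have h3 : MeasurePreserving (fun (y : κ × ι → X) (k : κ) (i : ι) => y (k, i))
      (Measure.infinitePi fun _ : κ × ι => μ)
      (Measure.infinitePi fun _ : κ => Measure.infinitePi fun _ : ι => μ) :=
    ⟨by fun_prop, Measure.infinitePi_map_curry (ι := κ) (κ := ι) (fun _ _ => μ)⟩
  exact h3.comp (h2.comp h1)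

/-- Coordinatewise maps. -/
theorem mp_pi {μ : Measure X} {ν : Measure Y} [IsProbabilityMeasure μ] {f : X → Y}
    (hf : MeasurePreserving f μ ν) :
    MeasurePreserving (fun (y : ι → X) (i : ι) => f (y i))
      (Measure.infinitePi fun _ : ι => μ) (Measure.infinitePi fun _ : ι => ν) := by
  refine ⟨measurable_pi_iff.2 fun i => hf.measurable.comp (measurable_pi_apply i), ?_⟩
  rw [Measure.infinitePi_map_pi _ fun _ => hf.measurable]
  simp_rw [hf.map_eq]

end general

instance instDM (S L : Type) : DiscreteMeasurableSpace (S ≃ L) := ⟨fun _ => trivial⟩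

/-- BASE. -/
theorem gBASE : G_BASE := by
  intro H S L _ _ _ _ κ _
  classical
  set σ : Measure (S → unitInterval × unitInterval) :=
    Measure.infinitePi fun _ : S => (volume : Measure (unitInterval × unitInterval)) with hσ
  set τ : Measure (ℕ → S → unitInterval) :=
    Measure.infinitePi fun _ : ℕ => Measure.infinitePi fun _ : S =>
      (volume : Measure unitInterval) with hτ
  have : Nonempty (S ≃ L) := by
    by_contra hne
    rw [not_nonempty_iff] at hne
    have h1 : κ Set.univ = 1 := measure_univ
    have h2 : (Set.univ : Set (S ≃ L)) = ∅ := Set.univ_eq_empty_iff.2 hne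
    rw [h2, measure_empty] at h1
    exact zero_ne_one h1
  have i1 : StandardBorelSpace (S ≃ L) := inferInstance
  have i2 : StandardBorelSpace (S → unitInterval × unitInterval) := inferInstance
  have i3 : StandardBorelSpace (ℕ → S → unitInterval) := inferInstance
  obtain ⟨f, hf, hfm⟩ := Measure.exists_measurable_map_eq (κ.prod (σ.prod τ))
  have m0 : MeasurePreserving f volume (κ.prod (σ.prod τ)) := ⟨hf, hfm⟩
  have m1 := mp_pi (ι := H) m0
  have m2 := mp_spl (ι := H) κ (σ.prod τ)
  have m3 := mp_spl (ι := H) σ τ
  have m4 := mp_unc (ι := H) (κ := S) (volume : Measure (unitInterval × unitInterval))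
  have m5 := mp_sw (ι := H) (κ := ℕ) (Measure.infinitePi fun _ : S =>
      (volume : Measure unitInterval))
  have m6 := mp_pi (ι := ℕ) (mp_unc (ι := H) (κ := S) (volume : Measure unitInterval))
  have m7 := (m4.prod (m6.comp m5)).comp m3
  have m8 := ((MeasurePreserving.id (Measure.infinitePi fun _ : H => κ)).prod m7).comp (m2.comp m1)
  have m9 := ((measurePreserving_prodAssoc (Measure.infinitePi fun _ : H => κ)
    (Measure.infinitePi fun _ : H × S => (volume : Measure (unitInterval × unitInterval)))
    (Measure.infinitePi fun _ : ℕ => Measure.infinitePi fun _ : H × S =>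
      (volume : Measure unitInterval))).symm).comp m8
  refine ⟨_, m9, ?_⟩
  intro g x
  rfl

end Pool.Agent.Helper19.OE
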