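import Pool.Agent.Helper75.OE.GoalsB

/-!
# Project OE (MP_fc0446_an), packet OE-LOCU: locality of the update on the explored set
-/

set_option autoImplicit false

namespace Pool.Agent.Helper19.OE

open Pool.Agent.Helper73.OE Pool.Agent.Helper73.OE.Sys Pool.Agent.Helper75.OE

section run

variable {H S L : Type} [Group H] (X : Sys H S L)

theorem onRun_loc1 (O O' : Edges H S) (f g : Cfg H S L) {v : H} {p : S} {y : L} {z : H}
    (h : X.OnRun O' g v p y z) : (∀ x, X.OnRun O f v p y x → g x = f x) →
      (∀ x, X.OnRun O f v p y x → ∀ r, (O' x r ↔ O x r)) → X.OnRun O f v p y z := by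
  induction h with
  | here v p y => intro _ _; exact OnRun.here v p y
  | step v p y z ho h ih =>
    intro hf hO
    have hv := OnRun.here (X := X) (O := O) (f := f) v p y
    have e1 := hf v hv
    rw [e1] at ho ih
    have ho' := (hO v hv _).1 ho
    exact OnRun.step v p y z ho' (ih (fun x hx => hf x (OnRun.step v p y x ho' hx))
      (fun x hx => hO x (OnRun.step v p y x ho' hx)))

theorem onRun_loc2 (O O' : Edges H S) (f g : Cfg H S L) {v : H} {p : S} {y : L} {z : H}
    (h : X.OnRun O f v p y z) : (∀ x, X.OnRun O f v p y x → g x = f x) →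
      (∀ x, X.OnRun O f v p y x → ∀ r, (O' x r ↔ O x r)) → X.OnRun O' g v p y z := by
  induction h with
  | here v p y => intro _ _; exact OnRun.here v p y
  | step v p y z ho h ih =>
    intro hf hO
    have hv := OnRun.here (X := X) (O := O) (f := f) v p y
    have e1 := hf v hv
    have ho' := (hO v hv _).2 ho
    refine OnRun.step v p y z ?_ ?_
    · rw [e1]
      exact ho'
    · rw [e1]
      exact ih (fun x hx => hf x (OnRun.step v p y x ho hx))
        (fun x hx => hO x (OnRun.step v p y x ho hx))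

theorem flipP_run (O O' : Edges H S) (f g : Cfg H S L) (z : H) (n : ℕ) :
    ∀ (v : H) (p : S) (y : L), (∀ x, X.OnRun O f v p y x → g x = f x) →
      (∀ x, X.OnRun O f v p y x → ∀ r, (O' x r ↔ O x r)) →
      X.flipP O' g z n v p y = X.flipP O f z n v p y ∧
        (¬ X.OnRun O f v p y z → X.flipP O f z n v p y = 1) := by
  induction n with
  | zero =>
    intro v p y hf hO
    have hv := OnRun.here (X := X) (O := O) (f := f) v p y
    simp only [Sys.flipP]
    rw [hf v hv]
    refine ⟨rfl, fun h => if_neg ?_⟩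
    rintro rfl
    exact h hv
  | succ n ih =>
    intro v p y hf hO
    have hv := OnRun.here (X := X) (O := O) (f := f) v p y
    simp only [Sys.flipP]
    rw [hf v hv]
    by_cases hz : z = v
    · rw [if_pos hz, if_pos hz]
      refine ⟨rfl, fun h => absurd ?_ h⟩
      rw [hz]
      exact hv
    · rw [if_neg hz, if_neg hz]
      by_cases ho : O v ((f v).symm y)
      · rw [if_pos ho, if_pos ((hO v hv _).2 ho)]
        have h1 := ih (X.nb v ((f v).symm y)) (X.bar ((f v).symm y)) (X.tau (f v p))
          (fun x hx => hf x (OnRun.step v p y x ho hx))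
          (fun x hx => hO x (OnRun.step v p y x ho hx))
        exact ⟨h1.1, fun h => h1.2 fun h2 => h (OnRun.step v p y z ho h2)⟩
      · rw [if_neg ho, if_neg (fun h => ho ((hO v hv _).1 h))]
        exact ⟨rfl, fun _ => rfl⟩

end run

section upd

variable {H S L : Type} [Group H] [Fintype L] (X : Sys H S L)

open Classical in
theorem as_loc (hB : A_BLOC) (P : Par) (O O' : Edges H S) (f g : Cfg H S L) (v : H) (p : S)
    (y : L) (hf : ∀ z, X.dist v z ≤ rad P → g z = f z)
    (hO : ∀ z r, X.dist v z ≤ rad P → (O' z r ↔ O z r)) :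
    X.AS P O' g v p y = X.AS P O f v p y := by
  unfold Sys.AS
  apply Finset.filter_congr
  intro i _
  have hi := i.1.2
  have hr : 2 * (i.1 : ℕ) + 1 + P.M ≤ rad P := by
    unfold rad
    omega
  exact (hB H S L X O O' P.M (2 * (i.1 : ℕ) + 1) v p y i.2 f g (fun z hz => hf z (hz.trans hr))
    (fun z r hz => hO z r (hz.trans hr))).1

open Classical in
theorem tri_loc (hB : A_BLOC) (P : Par) (O O' : Edges H S) (f g : Cfg H S L) (v : H) (p : S)
    (y : L) (i : Fin P.J × L) (hi : i ∈ X.AS P O f v p y)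
    (hf : ∀ z, X.dist v z ≤ rad P → g z = f z)
    (hO : ∀ z r, X.dist v z ≤ rad P → (O' z r ↔ O z r)) :
    (∀ z, g z = f z → X.TRi P O' i v p y g z = X.TRi P O i v p y f z) ∧
      ∀ z, rad P < X.dist v z → X.TRi P O i v p y f z = f z := by
  have hi' := i.1.2
  have hr : 2 * (i.1 : ℕ) + 1 + P.M ≤ rad P := by
    unfold rad
    omega
  have hA : X.Av O P.M f (2 * (i.1 : ℕ) + 1) v p y i.2 := by
    unfold Sys.AS at hi
    exact (Finset.mem_filter.1 hi).2
  have h1 := hB H S L X O O' P.M (2 * (i.1 : ℕ) + 1) v p y i.2 f g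
    (fun z hz => hf z (hz.trans hr)) (fun z r hz => hO z r (hz.trans hr))
  have h2 := hB H S L X O' O' P.M (2 * (i.1 : ℕ) + 1) v p y i.2 g g (fun z _ => rfl)
    (fun z r _ => Iff.rfl)
  have hA' := h1.1.2 hA
  refine ⟨fun z hz => ?_, fun z hz => (h1.2 hA).2 z (by omega)⟩
  unfold Sys.TRi
  rcases le_or_gt (X.dist v z) (2 * (i.1 : ℕ) + 1 + P.M) with h | h
  · exact (h1.2 hA).1 z h
  · rw [(h1.2 hA).2 z h, (h2.2 hA').2 z h, hz]

end upd

/-- LOCU. -/
theorem locu (hB : A_BLOC) (hP : A_PICK) : B_LOCU := by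
  classical
  intro H S L _ _ X P O O' f f' e u hf hO
  obtain ⟨v, s⟩ := e
  have hv : v ∈ Ex X P O f (v, s) := Or.inl (by rw [X.dist_self]; exact Nat.zero_le _)
  have hw : X.nb v s ∈ Ex X P O f (v, s) := Or.inr (Or.inl (by
    rw [X.dist_self]
    exact Nat.zero_le _))
  have ev := hf v hv
  have ew := hf _ hw
  have hrun : ∀ x, X.OnRun O f (X.nb v s) (X.bar s) (X.tau (f v s)) x → f' x = f x :=
    fun x hx => hf x (Or.inr (Or.inr hx))
  have hrunO : ∀ x, X.OnRun O f (X.nb v s) (X.bar s) (X.tau (f v s)) x → ∀ r,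
      (O' x r ↔ O x r) := fun x hx => hO x (Or.inr (Or.inr hx))
  have hball : ∀ z, X.dist v z ≤ rad P → f' z = f z := fun z hz => hf z (Or.inl hz)
  have hballO : ∀ z r, X.dist v z ≤ rad P → (O' z r ↔ O z r) := fun z r hz => hO z (Or.inl hz) r
  have hEx : Ex X P O' f' (v, s) = Ex X P O f (v, s) := by
    ext z
    unfold Ex
    simp only [Set.mem_ofPred_eq]
    rw [ev]
    constructor
    · rintro (h | h | h)
      · exact Or.inl h
      · exact Or.inr (Or.inl h)
      · exact Or.inr (Or.inr (onRun_loc1 X O O' f f' h hrun hrunO))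
    · rintro (h | h | h)
      · exact Or.inl h
      · exact Or.inr (Or.inl h)
      · exact Or.inr (Or.inr (onRun_loc2 X O O' f f' h hrun hrunO))
  have hAS := as_loc X hB P O O' f f' v s (X.tau (f (X.nb v s) (X.bar s))) hball hballO
  have hpk : ∀ i, pick P.cap (X.AS P O f v s (X.tau (f (X.nb v s) (X.bar s)))) u = some i →
      i ∈ X.AS P O f v s (X.tau (f (X.nb v s) (X.bar s))) := fun i hi => ((hP _ _ _).1 u i hi).1
  have htri : ∀ i, i ∈ X.AS P O f v s (X.tau (f (X.nb v s) (X.bar s))) →
      (∀ z, f' z = f z → X.TRi P O' i v s (X.tau (f (X.nb v s) (X.bar s))) f' z =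
        X.TRi P O i v s (X.tau (f (X.nb v s) (X.bar s))) f z) ∧
      ∀ z, rad P < X.dist v z → X.TRi P O i v s (X.tau (f (X.nb v s) (X.bar s))) f z = f z :=
    fun i hi => tri_loc X hB P O O' f f' v s _ i hi hball hballO
  have hCh : ∀ i, X.Cheap P O' v s u f' i ↔ X.Cheap P O v s u f i := by
    intro i
    unfold Sys.Cheap
    rw [ev, ew, hAS]
    constructor
    · rintro ⟨h1, h2⟩
      refine ⟨h1, ?_⟩
      rw [as_loc X hB P O O' (X.TRi P O i v s (X.tau (f (X.nb v s) (X.bar s))) f)
        (X.TRi P O' i v s (X.tau (f (X.nb v s) (X.bar s))) f') v s _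
        (fun z hz => (htri i (hpk i h1)).1 z (hball z hz)) hballO] at h2
      exact h2
    · rintro ⟨h1, h2⟩
      refine ⟨h1, ?_⟩
      rw [as_loc X hB P O O' (X.TRi P O i v s (X.tau (f (X.nb v s) (X.bar s))) f)
        (X.TRi P O' i v s (X.tau (f (X.nb v s) (X.bar s))) f') v s _
        (fun z hz => (htri i (hpk i h1)).1 z (hball z hz)) hballO]
      exact h2
  refine ⟨hEx, fun z hz => ?_, fun z hz => ?_⟩
  · have ez := hf z hz
    unfold Sys.Upd
    simp only
    rw [ev, ew]
    by_cases h0 : X.tau (f (X.nb v s) (X.bar s)) = f v s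
    · rw [if_pos h0, if_pos h0]
      exact ez
    · rw [if_neg h0, if_neg h0]
      by_cases h : ∃ i, X.Cheap P O v s u f i
      · have h' : ∃ i, X.Cheap P O' v s u f' i := by
          obtain ⟨i, hi⟩ := h
          exact ⟨i, (hCh i).2 hi⟩
        rw [dif_pos h, dif_pos h']
        have c1 := h.choose_spec.1
        have c2 := ((hCh _).1 h'.choose_spec).1
        have c3 : h'.choose = h.choose := by
          rw [c1] at c2
          exact (Option.some_injective _ c2).symm
        rw [c3]
        exact (htri _ (hpk _ c1)).1 z ez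
      · have h' : ¬ ∃ i, X.Cheap P O' v s u f' i := by
          rintro ⟨i, hi⟩
          exact h ⟨i, (hCh i).1 hi⟩
        rw [dif_neg h, dif_neg h']
        unfold Sys.flip
        rw [ez, (flipP_run X O O' f f' z _ (X.nb v s) (X.bar s) (X.tau (f v s)) hrun hrunO).1]
  · unfold Sys.Upd
    simp only
    by_cases h0 : X.tau (f (X.nb v s) (X.bar s)) = f v s
    · rw [if_pos h0]
    · rw [if_neg h0]
      by_cases h : ∃ i, X.Cheap P O v s u f i
      · rw [dif_pos h]
        refine (htri _ (hpk _ h.choose_spec.1)).2 z ?_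
        by_contra hc
        exact hz (Or.inl (not_lt.1 hc))
      · rw [dif_neg h]
        unfold Sys.flip
        rw [(flipP_run X O O' f f' z _ (X.nb v s) (X.bar s) (X.tau (f v s)) hrun hrunO).2
          (fun hx => hz (Or.inr (Or.inr hx)))]
        rfl

end Pool.Agent.Helper19.OE
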